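import Mathlib

section

/-!
The circle, the irrational rotation and the gap function used for the counterexample.
-/

noncomputable section

open MeasureTheory Set Filter Topology
open scoped ENNReal

namespace Pool.Agent.MP_1231ed_gt

abbrev Y : Type := AddCircle (1 : ℝ)

abbrev mu : Measure Y := AddCircle.haarAddCircle

/-- half of the rotation angle -/
def be : Y := ((Real.sqrt 2 : ℝ) : Y)

/-- the rotation angle -/
def al : Y := be + be

theorem denseRange_al : DenseRange (fun n : ℤ => n • al) := by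
  have h : al = ((Real.sqrt 2 + Real.sqrt 2 : ℝ) : Y) := by
    simp [al, be]
  rw [h, AddCircle.denseRange_zsmul_coe_iff]
  have h2 : (Real.sqrt 2 + Real.sqrt 2) / 1 = ((2 : ℕ) : ℝ) * Real.sqrt 2 := by
    push_cast; ring
  rw [h2]
  exact irrational_sqrt_two.natCast_mul (by norm_num)

theorem ergodic_al : Ergodic (fun x : Y => al + x) mu :=
  ergodic_add_left_of_denseRange_zsmul denseRange_al mu

def gam (y : Y) : ℝ := 1 + periodizedBernoulli 2 y

theorem continuous_gam : Continuous gam :=
  continuous_const.add (periodizedBernoulli.continuous (by norm_num))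

theorem gam_coe {t : ℝ} (ht : t ∈ Ico (0 : ℝ) 1) : gam (t : Y) = 1 + (t ^ 2 - t + 6⁻¹) := by
  unfold gam periodizedBernoulli
  rw [AddCircle.liftIco_zero_coe_apply ht, bernoulliFun_two]

theorem gam_lower (y : Y) : 1 / 2 ≤ gam y := by
  obtain ⟨t, ht, rfl⟩ := y.eq_coe_Ico
  rw [gam_coe ht]
  nlinarith [sq_nonneg (t - 1 / 2)]

theorem gam_upper (y : Y) : gam y ≤ 2 := by
  obtain ⟨t, ht, rfl⟩ := y.eq_coe_Ico
  rw [gam_coe ht]
  nlinarith [ht.1, ht.2]

theorem gam_neg (y : Y) : gam (-y) = gam y := by
  obtain ⟨t, ht, rfl⟩ := y.eq_coe_Ico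
  rcases eq_or_lt_of_le ht.1 with h0 | h0
  · subst h0; simp
  · have h1 : -((t : ℝ) : Y) = ((1 - t : ℝ) : Y) := by
      rw [AddCircle.coe_sub]
      have : ((1 : ℝ) : Y) = 0 := AddCircle.coe_period 1
      rw [this, zero_sub]
    have h2 : (1 - t) ∈ Ico (0 : ℝ) 1 := ⟨by linarith [ht.2], by linarith⟩
    rw [h1, gam_coe h2, gam_coe ht]
    ring

theorem integral_fourier_ne_zero {k : ℤ} (hk : k ≠ 0) :
    ∫ t : Y, fourier k t ∂mu = 0 := by
  have h := integral_eq_zero_of_add_right_eq_neg (μ := mu)
    (fourier_add_half_inv_index (T := 1) hk one_pos)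
  exact h

theorem fourier_gam_ne_zero {k : ℤ} (hk : k ≠ 0) :
    ∫ t : Y, fourier (-k) t * (gam t : ℂ) ∂mu ≠ 0 := by
  have h := fourierCoeff_bernoulli_eq (k := 2) (by norm_num) k
  have hB : Continuous (fun t : Y => (periodizedBernoulli 2 t : ℂ)) :=
    Complex.continuous_ofReal.comp (periodizedBernoulli.continuous (by norm_num))
  have h1 : ∫ t : Y, fourier (-k) t * (gam t : ℂ) ∂mu
      = ∫ t : Y, fourier (-k) t ∂mu
        + ∫ t : Y, fourier (-k) t * (periodizedBernoulli 2 t : ℂ) ∂mu := by
    rw [← integral_add]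
    · congr 1; ext t; simp only [gam]; push_cast; ring
    · exact (map_continuous (fourier (-k))).integrable_of_hasCompactSupport
        (HasCompactSupport.of_compactSpace _)
    · exact ((map_continuous (fourier (-k))).mul hB).integrable_of_hasCompactSupport
        (HasCompactSupport.of_compactSpace _)
  rw [h1, integral_fourier_ne_zero (neg_ne_zero.mpr hk), zero_add]
  have h2 : ∫ t : Y, fourier (-k) t * (periodizedBernoulli 2 t : ℂ) ∂mu
      = fourierCoeff ((↑) ∘ periodizedBernoulli 2 : Y → ℂ) k := by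
    simp only [fourierCoeff, smul_eq_mul, Function.comp]
  rw [h2, h]
  have hk' : (k : ℂ) ≠ 0 := by exact_mod_cast hk
  have hpi : (Real.pi : ℂ) ≠ 0 := by exact_mod_cast Real.pi_ne_zero
  apply div_ne_zero
  · simp
  · apply pow_ne_zero
    simp [hk', hpi]

theorem fourier_arg_add (k : ℤ) (x y : Y) : fourier k (x + y) = fourier k x * fourier k y := by
  simp only [fourier_apply, smul_add, AddCircle.toCircle_add, Circle.coe_mul]

/-- A probability measure against which all the translates of `gam` along the orbit have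
the same integral is the Haar measure. -/
theorem eq_mu_of_translates (lam : Measure Y) [IsProbabilityMeasure lam] (c : ℝ)
    (h : ∀ n : ℤ, ∫ y, gam (y + be + n • al) ∂lam = c) : lam = mu := by
  have hcont : Continuous (fun t : Y => ∫ y, gam (y + t) ∂lam) := by
    have : Continuous (Function.uncurry (fun t y : Y => gam (y + t))) :=
      continuous_gam.comp (continuous_snd.add continuous_fst)
    have h2 := continuous_parametric_integral_of_continuous (μ := lam) this isCompact_univ
    simpa using h2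
  have hall : ∀ t : Y, ∫ y, gam (y + t) ∂lam = c := by
    have hd : DenseRange (fun n : ℤ => be + n • al) :=
      ((Homeomorph.addLeft be).surjective.denseRange).comp denseRange_al
        (Homeomorph.addLeft be).continuous
    intro t
    refine hd.induction_on t (isClosed_eq hcont continuous_const) ?_
    intro n
    simpa only [add_assoc] using h n
  have hfour : ∀ k : ℤ, ∫ y, fourier k y ∂lam = ∫ y, fourier k y ∂mu := by
    intro k
    rcases eq_or_ne k 0 with rfl | hk
    · simp
    rw [integral_fourier_ne_zero hk]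
    have hF : Continuous (Function.uncurry
        (fun t y : Y => fourier (-k) t * (gam (y + t) : ℂ))) := by
      refine ((map_continuous (fourier (-k))).comp continuous_fst).mul ?_
      exact Complex.continuous_ofReal.comp
        (continuous_gam.comp (continuous_snd.add continuous_fst))
    have hint : Integrable (Function.uncurry
        (fun t y : Y => fourier (-k) t * (gam (y + t) : ℂ))) (mu.prod lam) :=
      hF.integrable_of_hasCompactSupport (HasCompactSupport.of_compactSpace _)
    have hswap := integral_integral_swap hint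
    have hl : ∫ t, ∫ y, fourier (-k) t * (gam (y + t) : ℂ) ∂lam ∂mu = 0 := by
      have : ∀ t : Y, ∫ y, fourier (-k) t * (gam (y + t) : ℂ) ∂lam = fourier (-k) t * c := by
        intro t
        rw [integral_const_mul, integral_complex_ofReal, hall]
      simp_rw [this]
      rw [integral_mul_const, integral_fourier_ne_zero (neg_ne_zero.mpr hk), zero_mul]
    have hr : ∀ y : Y, ∫ t, fourier (-k) t * (gam (y + t) : ℂ) ∂mu
        = fourier k y * ∫ t : Y, fourier (-k) t * (gam t : ℂ) ∂mu := by
      intro y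
      rw [← integral_const_mul,
        ← integral_add_left_eq_self (fun t : Y => fourier k y * (fourier (-k) t * (gam t : ℂ))) y]
      congr 1; ext t
      rw [fourier_arg_add, ← mul_assoc, ← mul_assoc, ← fourier_add]
      simp
    rw [hl] at hswap
    simp_rw [hr] at hswap
    rw [integral_mul_const] at hswap
    exact (mul_eq_zero.mp hswap.symm).resolve_right (fourier_gam_ne_zero hk)
  have hallC : ∀ f : C(Y, ℂ), ∫ y, f y ∂lam = ∫ y, f y ∂mu := by
    intro f
    have hmem : f ∈ (Submodule.span ℂ (range (@fourier 1))).topologicalClosure := by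
      rw [span_fourier_closure_eq_top]; trivial
    have hint : ∀ (g : C(Y, ℂ)) (ν : Measure Y) [IsFiniteMeasure ν], Integrable g ν :=
      fun g ν _ => (map_continuous g).integrable_of_hasCompactSupport
        (HasCompactSupport.of_compactSpace _)
    have hc : ∀ (ν : Measure Y) [IsProbabilityMeasure ν],
        Continuous (fun g : C(Y, ℂ) => ∫ y, g y ∂ν) := by
      intro ν _
      refine (LipschitzWith.of_dist_le_mul (K := 1) ?_).continuous
      intro g g'
      rw [dist_eq_norm, dist_eq_norm, ← integral_sub (hint g ν) (hint g' ν)]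
      have := norm_integral_le_of_norm_le_const (μ := ν) (f := fun y => g y - g' y)
        (C := ‖g - g'‖) (Eventually.of_forall fun y => (g - g').norm_coe_le_norm y)
      simpa using this
    have hcl : IsClosed {g : C(Y, ℂ) | ∫ y, g y ∂lam = ∫ y, g y ∂mu} :=
      isClosed_eq (hc lam) (hc mu)
    refine closure_minimal (s := (Submodule.span ℂ (range (@fourier 1)) : Set C(Y, ℂ))) ?_ hcl hmem
    intro g hg
    induction hg using Submodule.span_induction with
    | mem x hx => obtain ⟨k, rfl⟩ := hx; exact hfour k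
    | zero => simp
    | add x y _ _ hx hy =>
      simp only [mem_ofPred_eq, ContinuousMap.add_apply] at hx hy ⊢
      rw [integral_add (hint x lam) (hint y lam), integral_add (hint x mu) (hint y mu), hx, hy]
    | smul a x _ hx =>
      simp only [mem_ofPred_eq, ContinuousMap.smul_apply] at hx ⊢
      rw [integral_smul, integral_smul, hx]
  apply ext_of_forall_integral_eq_of_IsFiniteMeasure
  intro f
  have := hallC ⟨fun y => (f y : ℂ), Complex.continuous_ofReal.comp f.continuous⟩
  simp only [ContinuousMap.coe_mk] at this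
  rw [integral_complex_ofReal, integral_complex_ofReal] at this
  exact_mod_cast this

end Pool.Agent.MP_1231ed_gt

end
end

section

/-!
The flux argument: if `x ↦ x + M x • al` preserves the Haar measure and `M` is integrable, then
the mean of `M` is an integer.
-/

noncomputable section

open MeasureTheory Set Filter Topology
open scoped ENNReal

namespace Pool.Agent.MP_1231ed_gt

theorem lintegral_tsum_shift (w : ℤ → Y → ℝ≥0∞) (hw : ∀ i, Measurable (w i)) :
    ∫⁻ x, ∑' i : ℤ, w i (x - i • al) ∂mu = ∫⁻ x, ∑' i : ℤ, w i x ∂mu := by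
  rw [lintegral_tsum (f := fun (i : ℤ) x => w i (x - i • al))
      (fun i => ((hw i).comp (measurable_id.sub_const _)).aemeasurable),
    lintegral_tsum (fun i => (hw i).aemeasurable)]
  congr 1; ext i
  exact lintegral_sub_right_eq_self (w i) (i • al)

theorem tsum_ite_nat (P : ℤ → Prop) [DecidablePred P]
    (h : (∑' i : ℤ, (if P i then 1 else 0 : ℝ≥0∞)) ≠ ⊤) :
    ∃ n : ℕ, (∑' i : ℤ, (if P i then 1 else 0 : ℝ≥0∞)) = n := by
  have h1 : (∑' i : ℤ, (if P i then 1 else 0 : ℝ≥0∞)) = ({i | P i} : Set ℤ).encard := by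
    rw [← ENNReal.tsum_set_one, tsum_subtype ({i | P i} : Set ℤ) (fun _ => (1 : ℝ≥0∞))]
    congr 1; ext i
    simp [indicator_apply]
  rw [h1] at h ⊢
  have h2 : ({i | P i} : Set ℤ).encard ≠ ⊤ := by
    intro h3; rw [h3] at h; simp at h
  obtain ⟨n, hn⟩ := ENat.ne_top_iff_exists.mp h2
  exact ⟨n, by rw [← hn]; simp⟩

theorem tsum_ite_Ico (a b : ℤ) :
    (∑' i : ℤ, (if a ≤ i ∧ i < b then 1 else 0 : ℝ≥0∞)) = ENNReal.ofReal ((b : ℝ) - a) := by
  rw [tsum_eq_sum (s := Finset.Ico a b)]
  · rw [Finset.sum_congr rfl (g := fun _ => (1 : ℝ≥0∞))]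
    · simp only [Finset.sum_const, Int.card_Ico, nsmul_eq_mul, mul_one]
      rcases le_total a b with h | h
      · rw [← ENNReal.ofReal_natCast]
        congr 1
        have : ((b - a).toNat : ℤ) = b - a := Int.toNat_of_nonneg (by omega)
        exact_mod_cast this
      · have : (b - a).toNat = 0 := by omega
        rw [this, ENNReal.ofReal_of_nonpos]
        · simp
        · have : (b : ℝ) ≤ a := by exact_mod_cast h
          linarith
    · intro i hi
      rw [if_pos (Finset.mem_Ico.mp hi)]
  · intro i hi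
    rw [if_neg (fun h => hi (Finset.mem_Ico.mpr h))]

theorem integral_int_of_map_eq (M : Y → ℤ) (hM : Measurable M)
    (hint : Integrable (fun x => (M x : ℝ)) mu)
    (hmap : Measure.map (fun x => x + M x • al) mu = mu) :
    ∃ c : ℤ, ∫ x, (M x : ℝ) ∂mu = c := by
  classical
  set Jp : Y → ℝ≥0∞ := fun x => ∑' i : ℤ,
    (if 0 ≤ i ∧ i < M (x - i • al) then 1 else 0 : ℝ≥0∞) with hJp
  set Jm : Y → ℝ≥0∞ := fun x => ∑' i : ℤ,
    (if M (x - i • al) ≤ i ∧ i < 0 then 1 else 0 : ℝ≥0∞) with hJm
  set N : Y → ℝ≥0∞ := fun x => ∑' i : ℤ,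
    (if M (x - i • al) = i then 1 else 0 : ℝ≥0∞) with hN
  have hmeas : ∀ u : ℤ → ℝ≥0∞, Measurable (fun y => u (M y)) :=
    fun u => (measurable_of_countable u).comp hM
  have hmeas' : ∀ (u : ℤ → ℝ≥0∞) (a : Y), Measurable (fun y => u (M (y - a))) :=
    fun u a => (hmeas u).comp (measurable_id.sub_const a)
  have mJp : Measurable Jp := Measurable.tsum fun i =>
    hmeas' (fun m => if 0 ≤ i ∧ i < m then 1 else 0) _
  have mJm : Measurable Jm := Measurable.tsum fun i =>
    hmeas' (fun m => if m ≤ i ∧ i < 0 then 1 else 0) _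
  have mN : Measurable N := Measurable.tsum fun i =>
    hmeas' (fun m => if m = i then 1 else 0) _
  have iJp : ∫⁻ x, Jp x ∂mu = ∫⁻ x, ENNReal.ofReal (M x : ℝ) ∂mu := by
    rw [hJp, lintegral_tsum_shift (fun i y => if 0 ≤ i ∧ i < M y then 1 else 0)
      (fun i => hmeas (fun m => if 0 ≤ i ∧ i < m then 1 else 0))]
    congr 1; ext x
    rw [tsum_ite_Ico]; simp
  have iJm : ∫⁻ x, Jm x ∂mu = ∫⁻ x, ENNReal.ofReal (-(M x : ℝ)) ∂mu := by
    rw [hJm, lintegral_tsum_shift (fun i y => if M y ≤ i ∧ i < 0 then 1 else 0)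
      (fun i => hmeas (fun m => if m ≤ i ∧ i < 0 then 1 else 0))]
    congr 1; ext x
    rw [tsum_ite_Ico]; simp
  have fJp : ∫⁻ x, Jp x ∂mu ≠ ⊤ := by
    rw [iJp]; exact hint.lintegral_lt_top.ne
  have fJm : ∫⁻ x, Jm x ∂mu ≠ ⊤ := by
    rw [iJm]; exact hint.neg.lintegral_lt_top.ne
  have aJp : ∀ᵐ x ∂mu, Jp x < ⊤ := ae_lt_top mJp fJp
  have aJm : ∀ᵐ x ∂mu, Jm x < ⊤ := ae_lt_top mJm fJm
  have hTheta : Measurable (fun x => x + M x • al) :=
    measurable_id.add ((measurable_of_countable (fun m : ℤ => m • al)).comp hM)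
  have aN : N =ᵐ[mu] fun _ => 1 := by
    apply ae_eq_of_forall_setLIntegral_eq_of_sigmaFinite mN measurable_const
    intro E hE _
    rw [← lintegral_indicator hE]
    have h1 : ∀ x, E.indicator N x = ∑' i : ℤ,
        (fun (i : ℤ) (y : Y) => E.indicator (fun _ => (1 : ℝ≥0∞)) (y + i • al)
          * (if M y = i then 1 else 0)) i (x - i • al) := by
      intro x
      simp only [sub_add_cancel]
      by_cases hx : x ∈ E
      · simp [hx, hN]
      · simp [hx]
    simp_rw [h1]
    rw [lintegral_tsum_shift (fun (i : ℤ) (y : Y) => E.indicator (fun _ => (1 : ℝ≥0∞)) (y + i • al)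
          * (if M y = i then 1 else 0))]
    · have h2 : ∀ y : Y, (∑' i : ℤ, E.indicator (fun _ => (1 : ℝ≥0∞)) (y + i • al)
          * (if M y = i then 1 else 0)) = E.indicator (fun _ => (1 : ℝ≥0∞)) (y + M y • al) := by
        intro y
        rw [tsum_eq_single (M y)]
        · simp
        · intro i hi
          rw [if_neg (fun h => hi h.symm), mul_zero]
      simp_rw [h2]
      rw [← lintegral_map (f := E.indicator (fun _ => (1 : ℝ≥0∞)))
        (measurable_const.indicator hE) hTheta, hmap, lintegral_indicator hE]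
    · intro i
      exact ((measurable_const.indicator hE).comp (measurable_id.add_const _)).mul
        (hmeas (fun m => if m = i then 1 else 0))
  have hid : ∀ x, Jp x + Jm (al + x) + 1 = Jp (al + x) + Jm x + N (al + x) := by
    intro x
    have e1 : ∀ i : ℤ, x - (i - 1) • al = al + x - i • al := by
      intro i; rw [sub_smul, one_smul]; abel
    have h1 : Jp x = ∑' i : ℤ,
        (if 0 ≤ i - 1 ∧ i - 1 < M (al + x - i • al) then 1 else 0 : ℝ≥0∞) := by
      rw [hJp]
      simp only
      rw [← (Equiv.subRight (1 : ℤ)).tsum_eq]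
      simp only [Equiv.subRight_apply, e1]
    have h2 : Jm x = ∑' i : ℤ,
        (if M (al + x - i • al) ≤ i - 1 ∧ i - 1 < 0 then 1 else 0 : ℝ≥0∞) := by
      rw [hJm]
      simp only
      rw [← (Equiv.subRight (1 : ℤ)).tsum_eq]
      simp only [Equiv.subRight_apply, e1]
    have h3 : (1 : ℝ≥0∞) = ∑' i : ℤ, (if i = 0 then 1 else 0 : ℝ≥0∞) := by
      rw [tsum_ite_eq]
    rw [h1, h2]
    conv_lhs => rw [h3]
    simp only [hJp, hJm, hN]
    rw [← ENNReal.tsum_add, ← ENNReal.tsum_add, ← ENNReal.tsum_add, ← ENNReal.tsum_add]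
    congr 1; ext i
    generalize M (al + x - i • al) = m
    split_ifs <;> first | rfl | omega | simp
  set J : Y → ℝ := fun x => (Jp x).toReal - (Jm x).toReal with hJ
  have mJ : Measurable J := mJp.ennreal_toReal.sub mJm.ennreal_toReal
  have hq := ergodic_al.toMeasurePreserving.quasiMeasurePreserving
  have hinv : J ∘ (fun x => al + x) =ᵐ[mu] J := by
    filter_upwards [aJp, aJm, hq.ae aJp, hq.ae aJm, hq.ae aN] with x h1 h2 h3 h4 h5
    have h6 := hid x
    rw [h5] at h6
    have h7 := congrArg ENNReal.toReal h6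
    rw [ENNReal.toReal_add (by finiteness) (by simp), ENNReal.toReal_add h1.ne h4.ne,
      ENNReal.toReal_add (by finiteness) (by simp), ENNReal.toReal_add h3.ne h2.ne] at h7
    simp only [Function.comp, hJ]
    linarith
  obtain ⟨c, hc⟩ := ergodic_al.ae_eq_const_of_ae_eq_comp₀ mJ.nullMeasurable hinv
  have hex : ∃ x, Jp x < ⊤ ∧ Jm x < ⊤ ∧ J x = c := by
    have : ∀ᵐ x ∂mu, Jp x < ⊤ ∧ Jm x < ⊤ ∧ J x = c := by
      filter_upwards [aJp, aJm, hc] with x h1 h2 h3 using ⟨h1, h2, h3⟩
    exact this.exists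
  obtain ⟨x, h1, h2, h3⟩ := hex
  obtain ⟨n1, hn1⟩ := tsum_ite_nat _ h1.ne
  obtain ⟨n2, hn2⟩ := tsum_ite_nat _ h2.ne
  refine ⟨(n1 : ℤ) - n2, ?_⟩
  have h4 : c = (n1 : ℝ) - n2 := by
    rw [← h3]
    simp only [hJ, hJp, hJm, hn1, hn2]
    simp
  have h5 : ∫ x, J x ∂mu = c := by
    rw [integral_congr_ae hc]; simp
  have h6 : ∫ x, J x ∂mu = ∫ x, (M x : ℝ) ∂mu := by
    rw [hJ, integral_sub (integrable_toReal_of_lintegral_ne_top mJp.aemeasurable fJp)
      (integrable_toReal_of_lintegral_ne_top mJm.aemeasurable fJm),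
      integral_toReal mJp.aemeasurable aJp, integral_toReal mJm.aemeasurable aJm, iJp, iJm,
      integral_eq_lintegral_pos_part_sub_lintegral_neg_part hint]
  rw [← h6, h5, h4]; push_cast; ring

end Pool.Agent.MP_1231ed_gt

end
end
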