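import Mathlib
import Pool.Agent.Mg.F1231ed.Gfb77fe

section

/-!
The position cocycle `F`, the fibre distance `D` and the twisted metric `rho` on the space of
integrable integer valued functions on the circle.
-/

noncomputable section

open MeasureTheory Set Filter Topology
open scoped ENNReal

namespace Pool.Agent.MP_1231ed_gt

def g (y : Y) : ℝ := gam (y + be)

theorem continuous_g : Continuous g := continuous_gam.comp (continuous_id.add continuous_const)

theorem g_refl (y : Y) : g (-y - al) = g y := by
  unfold g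
  rw [← gam_neg]
  congr 1
  simp only [al]; abel

def F (x : Y) (n : ℤ) : ℝ :=
  ∑ j ∈ Finset.Ico 0 n, g (x + j • al) - ∑ j ∈ Finset.Ico n 0, g (x + j • al)

theorem F_succ (x : Y) (n : ℤ) : F x (n + 1) = F x n + g (x + n • al) := by
  unfold F
  rcases le_or_gt 0 n with h | h
  · have h1 : Finset.Ico 0 (n + 1) = insert n (Finset.Ico 0 n) := by
      ext j; simp only [Finset.mem_Ico, Finset.mem_insert]; omega
    have h2 : Finset.Ico (n + 1) 0 = ∅ := Finset.Ico_eq_empty (by omega)
    have h3 : Finset.Ico n 0 = ∅ := Finset.Ico_eq_empty (by omega)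
    rw [h1, h2, h3, Finset.sum_insert (by simp)]
    ring
  · have h1 : Finset.Ico n 0 = insert n (Finset.Ico (n + 1) 0) := by
      ext j; simp only [Finset.mem_Ico, Finset.mem_insert]; omega
    have h2 : Finset.Ico 0 (n + 1) = ∅ := Finset.Ico_eq_empty (by omega)
    have h3 : Finset.Ico 0 n = ∅ := Finset.Ico_eq_empty (by omega)
    rw [h1, h2, h3, Finset.sum_insert (by simp)]
    ring

theorem continuous_F (n : ℤ) : Continuous (fun x => F x n) := by
  unfold F
  exact (continuous_finsetSum _ fun j _ =>
    continuous_g.comp (continuous_id.add continuous_const)).sub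
    (continuous_finsetSum _ fun j _ => continuous_g.comp (continuous_id.add continuous_const))

theorem F_lower (x : Y) {i j : ℤ} (h : i ≤ j) : ((j : ℝ) - i) / 2 ≤ F x j - F x i := by
  have : Monotone (fun n : ℤ => F x n - (n : ℝ) / 2) := by
    apply monotone_int_of_le_succ
    intro n
    rw [F_succ]
    have := gam_lower (x + n • al + be)
    simp only [g]
    push_cast
    linarith
  have := this h
  simp only at this
  linarith

theorem F_upper (x : Y) {i j : ℤ} (h : i ≤ j) : F x j - F x i ≤ 2 * ((j : ℝ) - i) := by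
  have : Monotone (fun n : ℤ => 2 * (n : ℝ) - F x n) := by
    apply monotone_int_of_le_succ
    intro n
    rw [F_succ]
    have := gam_upper (x + n • al + be)
    simp only [g]
    push_cast
    linarith
  have := this h
  simp only at this
  linarith

theorem F_strictMono (x : Y) : StrictMono (F x) := by
  intro i j h
  have h1 := F_lower x h.le
  have h2 : (i : ℝ) < j := by exact_mod_cast h
  linarith

def D (x : Y) (i j : ℤ) : ℝ := |F x i - F x j|

theorem D_nonneg (x : Y) (i j : ℤ) : 0 ≤ D x i j := abs_nonneg _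

theorem D_self (x : Y) (i : ℤ) : D x i i = 0 := by simp [D]

theorem D_comm (x : Y) (i j : ℤ) : D x i j = D x j i := abs_sub_comm _ _

theorem D_triangle (x : Y) (i j k : ℤ) : D x i k ≤ D x i j + D x j k := abs_sub_le _ _ _

theorem D_lower (x : Y) (i j : ℤ) : dist i j / 2 ≤ D x i j := by
  rw [Int.dist_eq, D]
  rcases le_total i j with h | h
  · have h1 := F_lower x h
    have h2 : (i : ℝ) ≤ j := by exact_mod_cast h
    rw [abs_of_nonpos (by linarith), abs_of_nonpos (by linarith)]
    linarith
  · have h1 := F_lower x h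
    have h2 : (j : ℝ) ≤ i := by exact_mod_cast h
    rw [abs_of_nonneg (by linarith), abs_of_nonneg (by linarith)]
    linarith

theorem D_upper (x : Y) (i j : ℤ) : D x i j ≤ 2 * dist i j := by
  rw [Int.dist_eq, D]
  rcases le_total i j with h | h
  · have h1 := F_upper x h
    have h3 := F_lower x h
    have h2 : (i : ℝ) ≤ j := by exact_mod_cast h
    rw [abs_of_nonpos (by linarith), abs_of_nonpos (by linarith)]
    linarith
  · have h1 := F_upper x h
    have h3 := F_lower x h
    have h2 : (j : ℝ) ≤ i := by exact_mod_cast h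
    rw [abs_of_nonneg (by linarith), abs_of_nonneg (by linarith)]
    linarith

theorem D_between_iff (x : Y) (i j k : ℤ) :
    D x i j + D x j k = D x i k ↔ (i ≤ j ∧ j ≤ k) ∨ (k ≤ j ∧ j ≤ i) := by
  simp only [← (F_strictMono x).le_iff_le, D]
  generalize F x i = a
  generalize F x j = b
  generalize F x k = c
  constructor
  · intro h
    rcases abs_cases (a - b) with h1 | h1 <;> rcases abs_cases (b - c) with h2 | h2 <;>
      rcases abs_cases (a - c) with h3 | h3 <;>
      first
      | (left; constructor <;> linarith)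
      | (right; constructor <;> linarith)
  · rintro (⟨h1, h2⟩ | ⟨h1, h2⟩)
    · rw [abs_of_nonpos (by linarith), abs_of_nonpos (by linarith), abs_of_nonpos (by linarith)]
      ring
    · rw [abs_of_nonneg (by linarith), abs_of_nonneg (by linarith), abs_of_nonneg (by linarith)]
      ring

theorem D_succ (x : Y) (n : ℤ) : D x n (n + 1) = g (x + n • al) := by
  rw [D, F_succ]
  have := gam_lower (x + n • al + be)
  rw [abs_of_nonpos (by simp only [g]; linarith)]
  ring

def tau (s : ℤ) (x : Y) : Y := -x - s • al

theorem tau_tau (s : ℤ) (x : Y) : tau s (tau s x) = x := by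
  simp [tau]

theorem measurePreserving_tau (s : ℤ) : MeasurePreserving (tau s) mu mu :=
  (measurePreserving_sub_right mu (s • al)).comp (Measure.measurePreserving_neg mu)

theorem measurable_tau (s : ℤ) : Measurable (tau s) := (measurePreserving_tau s).measurable

theorem ae_tau (s : ℤ) {p : Y → Prop} (h : ∀ᵐ x ∂mu, p x) : ∀ᵐ x ∂mu, p (tau s x) :=
  (measurePreserving_tau s).quasiMeasurePreserving.ae h

def tauEquiv (s : ℤ) : Y ≃ᵐ Y where
  toFun := tau s
  invFun := tau s
  left_inv := tau_tau s
  right_inv := tau_tau s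
  measurable_toFun := measurable_tau s
  measurable_invFun := measurable_tau s

theorem integral_tau (s : ℤ) (u : Y → ℝ) : ∫ x, u (tau s x) ∂mu = ∫ x, u x ∂mu :=
  MeasurePreserving.integral_comp' (f := tauEquiv s) (measurePreserving_tau s) u

theorem F_tau (s : ℤ) (x : Y) (j : ℤ) :
    F (tau s x) (s - j) + F x j = F (tau s x) s + F x 0 := by
  have step : ∀ j : ℤ, F (tau s x) (s - (j + 1)) + F x (j + 1) = F (tau s x) (s - j) + F x j := by
    intro j
    have h1 := F_succ (tau s x) (s - (j + 1))
    have h2 : s - (j + 1) + 1 = s - j := by ring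
    rw [h2] at h1
    have h3 : tau s x + (s - (j + 1)) • al = -(x + j • al) - al := by
      simp only [tau, sub_smul, add_smul, one_smul]; abel
    rw [h3, g_refl] at h1
    rw [F_succ x j, h1]; ring
  induction j using Int.induction_on with
  | zero => simp
  | succ n ih => rw [step, ih]
  | pred n ih =>
    have := step (-(n : ℤ) - 1)
    rw [sub_add_cancel] at this
    rw [← this, ih]

theorem D_tau (s : ℤ) (x : Y) (i j : ℤ) : D (tau s x) (s - i) (s - j) = D x i j := by
  have h1 := F_tau s x i
  have h2 := F_tau s x j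
  rw [D, D, abs_sub_comm]
  congr 1
  linarith

abbrev L : Type := Lp ℤ 1 mu

theorem L_measurable (k : L) : Measurable (k : Y → ℤ) := (Lp.stronglyMeasurable k).measurable

theorem measurable_F_comp {k : Y → ℤ} (hk : Measurable k) : Measurable (fun x => F x (k x)) := by
  have h : Measurable (fun p : Y × ℤ => F p.1 p.2) := by
    apply measurable_from_prod_countable_left
    intro n
    exact (continuous_F n).measurable
  have h2 : Measurable (fun x : Y => (x, k x)) := measurable_id.prodMk hk
  exact Measurable.comp (g := fun p : Y × ℤ => F p.1 p.2) (f := fun x : Y => (x, k x)) h h2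

theorem integrable_dist (k l : L) : Integrable (fun x => dist (k x) (l x)) mu := by
  have h := ((L1.integrable_coeFn k).sub (L1.integrable_coeFn l)).norm
  simpa only [dist_eq_norm, Pi.sub_apply] using h

theorem integrable_D (k l : L) : Integrable (fun x => D x (k x) (l x)) mu := by
  refine Integrable.mono' ((integrable_dist k l).const_mul 2) ?_ ?_
  · exact (((measurable_F_comp (L_measurable k)).sub
      (measurable_F_comp (L_measurable l))).abs).aestronglyMeasurable
  · refine Eventually.of_forall fun x => ?_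
    rw [Real.norm_eq_abs, abs_of_nonneg (D_nonneg _ _ _)]
    exact D_upper _ _ _

def rho (k l : L) : ℝ := ∫ x, D x (k x) (l x) ∂mu

theorem rho_nonneg (k l : L) : 0 ≤ rho k l := integral_nonneg fun _ => D_nonneg _ _ _

theorem rho_self (k : L) : rho k k = 0 := by simp [rho, D_self]

theorem rho_comm (k l : L) : rho k l = rho l k := by simp only [rho, D_comm]

theorem rho_triangle (k l m : L) : rho k m ≤ rho k l + rho l m := by
  unfold rho
  rw [← integral_add (integrable_D k l) (integrable_D l m)]
  exact integral_mono (integrable_D k m) ((integrable_D k l).add (integrable_D l m))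
    fun x => D_triangle _ _ _ _

theorem rho_lower (k l : L) : dist k l / 2 ≤ rho k l := by
  rw [L1.dist_eq_integral_dist, ← integral_div]
  exact integral_mono ((integrable_dist k l).div_const 2) (integrable_D k l)
    fun x => D_lower _ _ _

theorem rho_upper (k l : L) : rho k l ≤ 2 * dist k l := by
  rw [L1.dist_eq_integral_dist, ← integral_const_mul]
  exact integral_mono (integrable_D k l) ((integrable_dist k l).const_mul 2)
    fun x => D_upper _ _ _

theorem eq_of_rho_eq_zero {k l : L} (h : rho k l = 0) : k = l := by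
  have h1 := rho_lower k l
  have h2 : 0 ≤ dist k l := dist_nonneg
  exact dist_eq_zero.mp (by linarith)

def Btw (a b c : L) : Prop := rho a b + rho b c = rho a c

theorem btw_iff (a b c : L) :
    Btw a b c ↔ ∀ᵐ x ∂mu, (a x ≤ b x ∧ b x ≤ c x) ∨ (c x ≤ b x ∧ b x ≤ a x) := by
  have h1 : rho a b + rho b c - rho a c
      = ∫ x, (D x (a x) (b x) + D x (b x) (c x) - D x (a x) (c x)) ∂mu := by
    unfold rho
    rw [← integral_add (integrable_D a b) (integrable_D b c)]
    exact (integral_sub ((integrable_D a b).add (integrable_D b c)) (integrable_D a c)).symm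
  rw [Btw, ← sub_eq_zero, h1, integral_eq_zero_iff_of_nonneg
    (fun x => sub_nonneg.mpr (D_triangle _ _ _ _))
    (((integrable_D a b).add (integrable_D b c)).sub (integrable_D a c))]
  refine Filter.eventually_congr (Eventually.of_forall fun x => ?_)
  rw [← D_between_iff x, Pi.zero_apply, sub_eq_zero]

end Pool.Agent.MP_1231ed_gt

end
end

section

/-!
The two metric spaces `Space 0` and `Space 1`, their completeness and separability, and the
isometry between their squares.
-/

noncomputable section

open MeasureTheory Set Filter Topology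
open scoped ENNReal

namespace Pool.Agent.MP_1231ed_gt

def Sym (s : ℤ) : Set L := {k | ∀ᵐ x ∂mu, k (tau s x) = s - k x}

def refl (s : ℤ) (k : L) : L :=
  Lp.const 1 mu s - Lp.compMeasurePreserving (tau s) (measurePreserving_tau s) k

theorem refl_ae (s : ℤ) (k : L) : ∀ᵐ x ∂mu, refl s k x = s - k (tau s x) := by
  filter_upwards [Lp.coeFn_sub (Lp.const 1 mu s)
    (Lp.compMeasurePreserving (tau s) (measurePreserving_tau s) k), Lp.coeFn_const 1 mu s,
    Lp.coeFn_compMeasurePreserving k (measurePreserving_tau s)] with x h1 h2 h3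
  rw [refl, h1, Pi.sub_apply, h2, h3]
  rfl

theorem continuous_refl (s : ℤ) : Continuous (refl s) :=
  continuous_const.sub (Lp.isometry_compMeasurePreserving (measurePreserving_tau s)).continuous

theorem mem_Sym_iff (s : ℤ) (k : L) : k ∈ Sym s ↔ refl s k = k := by
  constructor
  · intro h
    apply Lp.ext
    filter_upwards [h, refl_ae s k] with x h1 h2
    rw [h2, h1]; ring
  · intro h
    have h2 := refl_ae s k
    rw [h] at h2
    filter_upwards [h2] with x h1
    omega

theorem isClosed_Sym (s : ℤ) : IsClosed (Sym s) := by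
  have : Sym s = {k | refl s k = k} := by
    ext k; exact mem_Sym_iff s k
  rw [this]
  exact isClosed_eq (continuous_refl s) continuous_id

def Space (s : ℤ) : Type := {k : L // k ∈ Sym s}

def Space.val {s : ℤ} (a : Space s) : L := Subtype.val a

theorem Space.prop {s : ℤ} (a : Space s) : a.val ∈ Sym s := Subtype.prop a

def Space.mk {s : ℤ} (k : L) (h : k ∈ Sym s) : Space s := Subtype.mk k h

@[simp] theorem Space.val_mk {s : ℤ} (k : L) (h : k ∈ Sym s) : (Space.mk k h).val = k := rfl

theorem Space.ext {s : ℤ} {a b : Space s} (h : a.val = b.val) : a = b := Subtype.ext h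

instance (s : ℤ) : MetricSpace (Space s) where
  dist a b := Real.sqrt (rho a.val b.val)
  dist_self a := by simp [rho_self]
  dist_comm a b := by rw [rho_comm]
  dist_triangle a b c := by
    refine (Real.sqrt_le_sqrt (rho_triangle a.val b.val c.val)).trans ?_
    rw [Real.sqrt_le_left (by positivity), add_sq, Real.sq_sqrt (rho_nonneg _ _),
      Real.sq_sqrt (rho_nonneg _ _)]
    have : 0 ≤ 2 * Real.sqrt (rho a.val b.val) * Real.sqrt (rho b.val c.val) := by positivity
    linarith
  eq_of_dist_eq_zero {a b} h := by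
    apply Space.ext
    apply eq_of_rho_eq_zero
    exact (Real.sqrt_eq_zero (rho_nonneg _ _)).mp h

theorem Space.dist_eq {s : ℤ} (a b : Space s) : dist a b = Real.sqrt (rho a.val b.val) := rfl

theorem Space.dist_sq {s : ℤ} (a b : Space s) : dist a b ^ 2 = rho a.val b.val := by
  rw [Space.dist_eq, Real.sq_sqrt (rho_nonneg _ _)]

theorem Space.tendsto_of_val {s : ℤ} {ι : Type} {l : Filter ι} {u : ι → Space s} {a : Space s}
    (h : Tendsto (fun i => (u i).val) l (𝓝 a.val)) : Tendsto u l (𝓝 a) := by
  rw [tendsto_iff_dist_tendsto_zero] at h ⊢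
  have h2 : Tendsto (fun i => Real.sqrt (2 * dist (u i).val a.val)) l (𝓝 0) := by
    have := (h.const_mul 2).sqrt
    simpa using this
  refine squeeze_zero (fun _ => dist_nonneg) (fun i => ?_) h2
  rw [Space.dist_eq]
  exact Real.sqrt_le_sqrt (rho_upper _ _)

instance (s : ℤ) : CompleteSpace (Space s) := by
  apply Metric.complete_of_cauchySeq_tendsto
  intro u hu
  have hv : CauchySeq (fun n => (u n).val) := by
    rw [Metric.cauchySeq_iff] at hu ⊢
    intro e he
    obtain ⟨N, hN⟩ := hu (Real.sqrt (e / 2)) (by positivity)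
    refine ⟨N, fun m hm n hn => ?_⟩
    have h1 := hN m hm n hn
    rw [Space.dist_eq, Real.sqrt_lt_sqrt_iff (rho_nonneg _ _)] at h1
    have h2 := rho_lower (u m).val (u n).val
    linarith
  obtain ⟨k, hk⟩ := cauchySeq_tendsto_of_complete hv
  have hmem : k ∈ Sym s :=
    (isClosed_Sym s).mem_of_tendsto hk (Eventually.of_forall fun n => (u n).prop)
  exact ⟨Space.mk k hmem, Space.tendsto_of_val hk⟩

instance (s : ℤ) : TopologicalSpace.SeparableSpace (Space s) := by
  have : Fact ((1 : ℝ≥0∞) ≠ ⊤) := ⟨by simp⟩
  let f : {k : L // k ∈ Sym s} → Space s := fun k => Space.mk k.1 k.2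
  have hf : Continuous f := by
    rw [continuous_iff_continuousAt]
    intro k
    exact Space.tendsto_of_val (continuous_subtype_val.tendsto k)
  have hs : Function.Surjective f := fun a => ⟨⟨a.val, a.prop⟩, rfl⟩
  exact hs.denseRange.separableSpace hf

/-- A measurable fundamental domain for the reflection `tau s`. -/
def P (s : ℤ) : Set Y := {x | embeddingReal Y x < embeddingReal Y (tau s x)}

theorem measurableSet_P (s : ℤ) : MeasurableSet (P s) :=
  measurableSet_lt (measurableEmbedding_embeddingReal Y).measurable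
    ((measurableEmbedding_embeddingReal Y).measurable.comp (measurable_tau s))

theorem ae_tau_ne (s : ℤ) : ∀ᵐ x ∂mu, tau s x ≠ x := by
  have h1 : MeasurePreserving (fun x : Y => (2 : ℤ) • x) mu mu :=
    Measure.measurePreserving_zsmul mu (by norm_num)
  have h2 : ∀ᵐ y ∂mu, y ≠ -(s • al) := by
    have h3 := AddCircle.volume_closedBall (T := 1) (x := -(s • al)) 0
    rw [AddCircle.volume_eq_smul_haarAddCircle, Metric.closedBall_zero] at h3
    rw [ae_iff]
    simpa using h3
  filter_upwards [h1.quasiMeasurePreserving.ae h2] with x hx h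
  apply hx
  rw [tau] at h
  rw [two_smul]
  nth_rewrite 1 [← h]
  abel

theorem ae_tau_mem_P (s : ℤ) : ∀ᵐ x ∂mu, (tau s x ∈ P s ↔ x ∉ P s) := by
  filter_upwards [ae_tau_ne s] with x hx
  have h1 : embeddingReal Y (tau s x) ≠ embeddingReal Y x :=
    fun h => hx ((measurableEmbedding_embeddingReal Y).injective h)
  simp only [P, mem_ofPred_eq, tau_tau, not_lt]
  exact ⟨le_of_lt, fun h => lt_of_le_of_ne h h1⟩

open Classical in
def mix (s : ℤ) (k l : L) : L :=
  Integrable.toL1 ((P s).piecewise k l)
    (Integrable.piecewise (measurableSet_P s) (L1.integrable_coeFn k).integrableOn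
      (L1.integrable_coeFn l).integrableOn)

open Classical in
theorem mix_ae (s : ℤ) (k l : L) : ∀ᵐ x ∂mu, mix s k l x = if x ∈ P s then k x else l x := by
  filter_upwards [Integrable.coeFn_toL1 (Integrable.piecewise (measurableSet_P s)
    (L1.integrable_coeFn k).integrableOn (L1.integrable_coeFn l).integrableOn)] with x hx
  rw [mix, hx]
  rfl

open Classical in
theorem integral_half (s : ℤ) (u : Y → ℝ) (hu : Integrable u mu)
    (h : ∀ᵐ x ∂mu, u (tau s x) = u x) :
    ∫ x, (if x ∈ P s then u x else 0) ∂mu = (∫ x, u x ∂mu) / 2 ∧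
    ∫ x, (if x ∈ P s then 0 else u x) ∂mu = (∫ x, u x ∂mu) / 2 := by
  have h1 : ∫ x, (if x ∈ P s then u x else 0) ∂mu = ∫ x, (if x ∈ P s then 0 else u x) ∂mu := by
    rw [← integral_tau s]
    apply integral_congr_ae
    filter_upwards [h, ae_tau_mem_P s] with x h2 h3
    by_cases hx : x ∈ P s
    · rw [if_pos hx, if_neg (fun h4 => h3.mp h4 hx)]
    · rw [if_neg hx, if_pos (h3.mpr hx), h2]
  have i1 : Integrable (fun x => if x ∈ P s then u x else 0) mu :=
    hu.indicator (measurableSet_P s)
  have i2 : Integrable (fun x => if x ∈ P s then 0 else u x) mu := by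
    have := hu.indicator (measurableSet_P s).compl
    refine this.congr (Eventually.of_forall fun x => ?_)
    by_cases hx : x ∈ P s <;> simp [hx]
  have h2 : ∫ x, (if x ∈ P s then u x else 0) ∂mu + ∫ x, (if x ∈ P s then 0 else u x) ∂mu
      = ∫ x, u x ∂mu := by
    rw [← integral_add i1 i2]
    congr 1; ext x
    split_ifs <;> simp
  constructor <;> linarith

theorem D_sym {s : ℤ} {k l : L} (hk : k ∈ Sym s) (hl : l ∈ Sym s) :
    ∀ᵐ x ∂mu, D (tau s x) (k (tau s x)) (l (tau s x)) = D x (k x) (l x) := by
  filter_upwards [hk, hl] with x h1 h2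
  rw [h1, h2, D_tau]

theorem rho_mix {s : ℤ} {k l k' l' : L} (hk : k ∈ Sym s) (hl : l ∈ Sym s) (hk' : k' ∈ Sym s)
    (hl' : l' ∈ Sym s) : 2 * rho (mix s k l) (mix s k' l') = rho k k' + rho l l' := by
  classical
  have h1 := (integral_half s _ (integrable_D k k') (D_sym hk hk')).1
  have h2 := (integral_half s _ (integrable_D l l') (D_sym hl hl')).2
  have i1 : Integrable (fun x => if x ∈ P s then D x (k x) (k' x) else 0) mu :=
    (integrable_D k k').indicator (measurableSet_P s)
  have i2 : Integrable (fun x => if x ∈ P s then 0 else D x (l x) (l' x)) mu := by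
    have := (integrable_D l l').indicator (measurableSet_P s).compl
    refine this.congr (Eventually.of_forall fun x => ?_)
    by_cases hx : x ∈ P s <;> simp [hx]
  have h3 : rho (mix s k l) (mix s k' l')
      = ∫ x, (if x ∈ P s then D x (k x) (k' x) else 0) ∂mu
        + ∫ x, (if x ∈ P s then 0 else D x (l x) (l' x)) ∂mu := by
    rw [← integral_add i1 i2]
    apply integral_congr_ae
    filter_upwards [mix_ae s k l, mix_ae s k' l'] with x h4 h5
    rw [h4, h5]
    split_ifs <;> simp
  rw [h3, h1, h2, rho, rho]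
  ring

theorem mix_refl_mem (s : ℤ) (f : L) :
    mix s f (refl s f) ∈ Sym s ∧ mix s (refl s f) f ∈ Sym s := by
  constructor
  · filter_upwards [mix_ae s f (refl s f), ae_tau s (mix_ae s f (refl s f)), refl_ae s f,
      ae_tau s (refl_ae s f), ae_tau_mem_P s] with x h1 h2 h3 h4 h5
    rw [h1, h2, h3, h4, tau_tau]
    by_cases hx : x ∈ P s
    · rw [if_pos hx, if_neg (fun h6 => h5.mp h6 hx)]
    · rw [if_neg hx, if_pos (h5.mpr hx)]; ring
  · filter_upwards [mix_ae s (refl s f) f, ae_tau s (mix_ae s (refl s f) f), refl_ae s f,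
      ae_tau s (refl_ae s f), ae_tau_mem_P s] with x h1 h2 h3 h4 h5
    rw [h1, h2, h3, h4, tau_tau]
    by_cases hx : x ∈ P s
    · rw [if_pos hx, if_neg (fun h6 => h5.mp h6 hx)]; ring
    · rw [if_neg hx, if_pos (h5.mpr hx)]

def glue (s : ℤ) (p : Space s × Space s) : L := mix s p.1.val p.2.val

theorem rho_glue (s : ℤ) (p q : Space s × Space s) :
    2 * rho (glue s p) (glue s q) = dist p.1 q.1 ^ 2 + dist p.2 q.2 ^ 2 := by
  rw [Space.dist_sq, Space.dist_sq]
  exact rho_mix p.1.prop p.2.prop q.1.prop q.2.prop

theorem glue_bijective (s : ℤ) : Function.Bijective (glue s) := by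
  constructor
  · intro p q h
    have h1 := rho_glue s p q
    rw [h, rho_self] at h1
    have h2 : dist p.1 q.1 = 0 := by nlinarith [sq_nonneg (dist p.1 q.1), sq_nonneg (dist p.2 q.2)]
    have h3 : dist p.2 q.2 = 0 := by nlinarith [sq_nonneg (dist p.1 q.1), sq_nonneg (dist p.2 q.2)]
    exact Prod.ext (dist_eq_zero.mp h2) (dist_eq_zero.mp h3)
  · intro f
    refine ⟨(Space.mk _ (mix_refl_mem s f).1, Space.mk _ (mix_refl_mem s f).2), ?_⟩
    apply Lp.ext
    simp only [glue, Space.val_mk]
    filter_upwards [mix_ae s (mix s f (refl s f)) (mix s (refl s f) f), mix_ae s f (refl s f),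
      mix_ae s (refl s f) f] with x h1 h2 h3
    rw [h1, h2, h3]
    split_ifs <;> rfl

/-- The squares of the spaces `Space s` are all isometric. -/
theorem exists_square_equiv (s t : ℤ) : ∃ e : Space s × Space s ≃ Space t × Space t,
    ∀ p q, dist (e p).1 (e q).1 ^ 2 + dist (e p).2 (e q).2 ^ 2
      = dist p.1 q.1 ^ 2 + dist p.2 q.2 ^ 2 := by
  refine ⟨(Equiv.ofBijective _ (glue_bijective s)).trans
    (Equiv.ofBijective _ (glue_bijective t)).symm, fun p q => ?_⟩
  rw [← rho_glue, ← rho_glue]
  have : ∀ r, glue t (((Equiv.ofBijective _ (glue_bijective s)).trans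
      (Equiv.ofBijective _ (glue_bijective t)).symm) r) = glue s r := fun r =>
    (Equiv.ofBijective _ (glue_bijective t)).apply_symm_apply _
  rw [this, this]

end Pool.Agent.MP_1231ed_gt

end
end

section

/-!
The spaces `Space 0` and `Space 1` are not isometric.
-/

noncomputable section

open MeasureTheory Set Filter Topology
open scoped ENNReal

namespace Pool.Agent.MP_1231ed_gt

def toL (f : Y → ℤ) (hf : Integrable f mu) : L := hf.toL1 f

theorem toL_ae (f : Y → ℤ) (hf : Integrable f mu) : ∀ᵐ x ∂mu, toL f hf x = f x :=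
  Integrable.coeFn_toL1 hf

theorem integrable_of_bound {f : Y → ℤ} (hf : Measurable f) (C : ℤ) (h : ∀ x, |f x| ≤ C) :
    Integrable f mu := by
  refine Integrable.of_bound hf.aestronglyMeasurable (C : ℝ) (Eventually.of_forall fun x => ?_)
  rw [Int.norm_eq_abs]
  exact_mod_cast h x

open Classical in
def sg (s : ℤ) (x : Y) : ℤ := if x ∈ P s then 1 else -1

theorem measurable_sg (s : ℤ) : Measurable (sg s) :=
  Measurable.ite (measurableSet_P s) measurable_const measurable_const

theorem sg_cases (s : ℤ) (x : Y) : sg s x = 1 ∨ sg s x = -1 := by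
  unfold sg; split_ifs <;> simp

theorem sg_tau (s : ℤ) : ∀ᵐ x ∂mu, sg s (tau s x) = -sg s x := by
  filter_upwards [ae_tau_mem_P s] with x h
  unfold sg
  by_cases hx : x ∈ P s
  · rw [if_pos hx, if_neg (fun h6 => h.mp h6 hx)]
  · rw [if_neg hx, if_pos (h.mpr hx)]; simp

theorem integrable_e (n : ℤ) : Integrable (fun x => sg 0 x * n) mu := by
  refine integrable_of_bound ((measurable_sg 0).mul_const n) |n| fun x => ?_
  rcases sg_cases 0 x with h | h <;> simp [h]

theorem e_mem (n : ℤ) : toL _ (integrable_e n) ∈ Sym 0 := by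
  filter_upwards [toL_ae _ (integrable_e n), ae_tau 0 (toL_ae _ (integrable_e n)), sg_tau 0]
    with x h1 h2 h3
  rw [h1, h2, h3]; ring

def e (n : ℤ) : Space 0 := Space.mk _ (e_mem n)

theorem e_ae (n : ℤ) : ∀ᵐ x ∂mu, (e n).val x = sg 0 x * n := toL_ae _ (integrable_e n)

section

variable (Φ : Space 0 ≃ᵢ Space 1)

theorem rho_map (a b : Space 0) : rho (Φ a).val (Φ b).val = rho a.val b.val := by
  rw [← Space.dist_sq, ← Space.dist_sq, Φ.dist_eq]

theorem btw_map (a b c : Space 0) :
    Btw (Φ a).val (Φ b).val (Φ c).val ↔ Btw a.val b.val c.val := by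
  simp only [Btw, rho_map]

theorem ae_ne (n : ℤ) : ∀ᵐ x ∂mu, (Φ (e n)).val x ≠ (Φ (e (n + 1))).val x := by
  classical
  set b := Φ (e n) with hb
  set b' := Φ (e (n + 1)) with hb'
  let z : Y → ℤ := fun x => if b.val x = b'.val x then sg 1 x else 0
  have mz : Measurable z :=
    Measurable.ite (measurableSet_eq_fun (L_measurable _) (L_measurable _)) (measurable_sg 1)
      measurable_const
  have iz : Integrable z mu := by
    refine integrable_of_bound mz 1 fun x => ?_
    simp only [z]
    split_ifs
    · rcases sg_cases 1 x with h | h <;> simp [h]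
    · simp
  have ztau : ∀ᵐ x ∂mu, z (tau 1 x) = -z x := by
    filter_upwards [b.prop, b'.prop, sg_tau 1] with x h1 h2 h3
    simp only [z, h1, h2, h3]
    split_ifs <;> omega
  have hadd : ∀ c : Space 1, ∃ w : Space 1, ∀ᵐ x ∂mu, w.val x = c.val x + z x := by
    intro c
    have h0 : ∀ᵐ x ∂mu, (c.val + toL z iz) x = c.val x + z x := by
      filter_upwards [Lp.coeFn_add c.val (toL z iz), toL_ae z iz] with x h1 h2
      rw [h1, Pi.add_apply, h2]
    refine ⟨Space.mk (c.val + toL z iz) ?_, h0⟩
    filter_upwards [h0, ae_tau 1 h0, c.prop, ztau] with x h1 h2 h3 h4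
    rw [h1, h2, h3, h4]; ring
  obtain ⟨w, hw⟩ := hadd b
  obtain ⟨w', hw'⟩ := hadd b'
  obtain ⟨u, rfl⟩ := Φ.surjective w
  obtain ⟨u', rfl⟩ := Φ.surjective w'
  have hz : ∀ x, b.val x = b'.val x ∨ z x = 0 := by
    intro x
    by_cases h : b.val x = b'.val x
    · exact Or.inl h
    · right; simp only [z, if_neg h]
  have r1 : Btw b.val (Φ u).val (Φ u').val := by
    rw [btw_iff]
    filter_upwards [hw, hw'] with x h1 h2
    have := hz x
    omega
  have r2 : Btw b.val b'.val (Φ u').val := by
    rw [btw_iff]
    filter_upwards [hw, hw'] with x h1 h2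
    have := hz x
    omega
  have r3 : Btw (Φ u).val b.val b'.val := by
    rw [btw_iff]
    filter_upwards [hw, hw'] with x h1 h2
    have := hz x
    omega
  have r4 : Btw (Φ u).val (Φ u').val b'.val := by
    rw [btw_iff]
    filter_upwards [hw, hw'] with x h1 h2
    have := hz x
    omega
  rw [hb, btw_map, btw_iff] at r1
  rw [hb, hb', btw_map, btw_iff] at r2 r3
  rw [hb', btw_map, btw_iff] at r4
  have hu : u = e n := by
    apply Space.ext
    apply Lp.ext
    filter_upwards [r1, r2, r3, r4, e_ae n, e_ae (n + 1)] with x h1 h2 h3 h4 h5 h6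
    rcases sg_cases 0 x with h | h <;> rw [h] at h5 h6 <;> omega
  rw [hu, ← hb] at hw
  filter_upwards [hw] with x h1 h2
  have h3 : z x = sg 1 x := if_pos h2
  rcases sg_cases 1 x with h | h <;> omega

theorem ae_step (n : ℤ) : ∀ᵐ x ∂mu, (Φ (e (n + 1))).val x = (Φ (e n)).val x + 1 ∨
    (Φ (e (n + 1))).val x = (Φ (e n)).val x - 1 := by
  classical
  have hne := ae_ne Φ n
  set b := Φ (e n) with hb
  set b' := Φ (e (n + 1)) with hb'
  let z : Y → ℤ := fun x => if b.val x < b'.val x then 1 else -1
  have mz : Measurable z :=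
    Measurable.ite (measurableSet_lt (L_measurable _) (L_measurable _)) measurable_const
      measurable_const
  have iz : Integrable z mu := by
    refine integrable_of_bound mz 1 fun x => ?_
    simp only [z]
    split_ifs <;> simp
  have ztau : ∀ᵐ x ∂mu, z (tau 1 x) = -z x := by
    filter_upwards [b.prop, b'.prop, hne] with x h1 h2 h3
    simp only [z, h1, h2]
    split_ifs <;> omega
  have h0 : ∀ᵐ x ∂mu, (b.val + toL z iz) x = b.val x + z x := by
    filter_upwards [Lp.coeFn_add b.val (toL z iz), toL_ae z iz] with x h1 h2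
    rw [h1, Pi.add_apply, h2]
  have hmem : b.val + toL z iz ∈ Sym 1 := by
    filter_upwards [h0, ae_tau 1 h0, b.prop, ztau] with x h1 h2 h3 h4
    rw [h1, h2, h3, h4]; ring
  obtain ⟨u, hu⟩ := Φ.surjective (Space.mk _ hmem)
  have hc : ∀ᵐ x ∂mu, (Φ u).val x = b.val x + z x := by rw [hu]; exact h0
  have hz : ∀ x, (b.val x < b'.val x ∧ z x = 1) ∨ (¬ b.val x < b'.val x ∧ z x = -1) := by
    intro x
    by_cases h : b.val x < b'.val x
    · exact Or.inl ⟨h, if_pos h⟩
    · exact Or.inr ⟨h, if_neg h⟩
  have r0 : Btw b.val (Φ u).val b'.val := by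
    rw [btw_iff]
    filter_upwards [hc, hne] with x h1 h2
    have := hz x
    omega
  have r0' := r0
  rw [hb, hb', btw_map, btw_iff] at r0'
  have h1 : ∀ᵐ x ∂mu, ((e n).val + (e (n + 1)).val - u.val) x
      = (e n).val x + (e (n + 1)).val x - u.val x := by
    filter_upwards [Lp.coeFn_sub ((e n).val + (e (n + 1)).val) u.val,
      Lp.coeFn_add (e n).val (e (n + 1)).val] with x h1 h2
    rw [h1, Pi.sub_apply, h2, Pi.add_apply]
  have hv : (e n).val + (e (n + 1)).val - u.val ∈ Sym 0 := by
    show ∀ᵐ x ∂mu, ((e n).val + (e (n + 1)).val - u.val) (tau 0 x)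
      = 0 - ((e n).val + (e (n + 1)).val - u.val) x
    filter_upwards [h1, ae_tau 0 h1, (e n).prop, (e (n + 1)).prop, u.prop] with x h2 h3 h4 h5 h6
    rw [h2, h3, h4, h5, h6]; ring
  set v : Space 0 := Space.mk _ hv with hvdef
  have hv1 : ∀ᵐ x ∂mu, v.val x = (e n).val x + (e (n + 1)).val x - u.val x := h1
  have r1 : Btw (e n).val v.val (e (n + 1)).val := by
    rw [btw_iff]
    filter_upwards [r0', hv1] with x h2 h3
    omega
  have r2 : Btw u.val (e n).val v.val := by
    rw [btw_iff]
    filter_upwards [r0', hv1, e_ae n, e_ae (n + 1)] with x h2 h3 h5 h6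
    rcases sg_cases 0 x with h | h <;> rw [h] at h5 h6 <;> omega
  have r3 : Btw u.val (e (n + 1)).val v.val := by
    rw [btw_iff]
    filter_upwards [r0', hv1, e_ae n, e_ae (n + 1)] with x h2 h3 h5 h6
    rcases sg_cases 0 x with h | h <;> rw [h] at h5 h6 <;> omega
  rw [← btw_map Φ, btw_iff, ← hb, ← hb'] at r1
  rw [← btw_map Φ, btw_iff, ← hb] at r2
  rw [← btw_map Φ, btw_iff, ← hb'] at r3
  rw [btw_iff] at r0
  filter_upwards [r0, r1, r2, r3, hc, hne] with x h2 h3 h4 h5 h6 h7
  have := hz x
  omega

theorem ae_linear : ∀ᵐ x ∂mu, (∀ n : ℤ, (Φ (e n)).val x = (Φ (e 0)).val x + n) ∨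
    (∀ n : ℤ, (Φ (e n)).val x = (Φ (e 0)).val x - n) := by
  have hb : ∀ n : ℤ, Btw (Φ (e n)).val (Φ (e (n + 1))).val (Φ (e (n + 1 + 1))).val := by
    intro n
    rw [btw_map, btw_iff]
    filter_upwards [e_ae n, e_ae (n + 1), e_ae (n + 1 + 1)] with x h1 h2 h3
    rcases sg_cases 0 x with h | h <;> rw [h] at h1 h2 h3 <;> omega
  simp only [btw_iff] at hb
  filter_upwards [ae_all_iff.mpr hb, ae_all_iff.mpr (ae_step Φ)] with x h1 h2
  set b : ℤ → ℤ := fun n => (Φ (e n)).val x with hbdef
  have h3 : ∀ n, b (n + 1 + 1) - b (n + 1) = b (n + 1) - b n := by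
    intro n
    have := h1 n
    have := h2 n
    have := h2 (n + 1)
    simp only [hbdef]
    omega
  have h4 : ∀ n : ℤ, b (n + 1) - b n = b (0 + 1) - b 0 := by
    intro n
    induction n using Int.induction_on with
    | zero => rfl
    | succ n ih => rw [h3, ih]
    | pred n ih =>
      have := h3 (-(n : ℤ) - 1)
      rw [sub_add_cancel] at this
      rw [sub_add_cancel, ← this, ih]
  have h5 : ∀ n : ℤ, b n = b 0 + (b (0 + 1) - b 0) * n := by
    intro n
    induction n using Int.induction_on with
    | zero => simp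
    | succ n ih => have := h4 n; rw [mul_add, mul_one]; omega
    | pred n ih =>
      have := h4 (-(n : ℤ) - 1)
      rw [sub_add_cancel] at this
      rw [mul_sub, mul_one]; omega
  rcases h2 0 with h | h
  · left
    intro n
    have h6 : b (0 + 1) - b 0 = 1 := by simp only [hbdef]; omega
    have := h5 n
    rw [h6] at this
    simpa [hbdef] using this
  · right
    intro n
    have h6 : b (0 + 1) - b 0 = -1 := by simp only [hbdef]; omega
    have := h5 n
    rw [h6] at this
    simpa [hbdef, sub_eq_add_neg] using this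

end

theorem D_pair (x : Y) (m n : ℤ) (b : ℤ → ℤ) (h : (∀ j, b j = m + j) ∨ (∀ j, b j = m - j)) :
    D x (b n) (b (n + 1)) + D x (b (-n - 1)) (b (-n))
      = g (x + (m + n) • al) + g (x + (m - n - 1) • al) := by
  rcases h with h | h
  · rw [h, h, h, h, ← D_succ, ← D_succ]
    congr 2 <;> ring
  · rw [h, h, h, h, ← D_succ, ← D_succ, add_comm, D_comm x (m - n), D_comm x (m - (-n - 1))]
    congr 2 <;> ring

theorem integrable_g_comp {f : Y → Y} (hf : Measurable f) : Integrable (fun x => g (f x)) mu := by
  refine Integrable.of_bound (continuous_g.measurable.comp hf).aestronglyMeasurable 2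
    (Eventually.of_forall fun x => ?_)
  have h1 := gam_lower (f x + be)
  have h2 := gam_upper (f x + be)
  rw [Real.norm_eq_abs, g, abs_of_nonneg (by linarith)]
  exact h2

theorem measurable_shift {M : Y → ℤ} (hM : Measurable M) : Measurable (fun x => x + M x • al) :=
  measurable_id.add ((measurable_of_countable (fun m : ℤ => m • al)).comp hM)

theorem not_isometric : IsEmpty (Space 0 ≃ᵢ Space 1) := by
  refine ⟨fun Φ => ?_⟩
  set M : Y → ℤ := fun x => (Φ (e 0)).val x with hMdef
  have hM : Measurable M := L_measurable _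
  have hsym : ∀ᵐ x ∂mu, M (tau 1 x) = 1 - M x := (Φ (e 0)).prop
  have key : ∀ n : ℤ, ∫ x, g (x + (M x + n) • al) ∂mu = ∫ x, g x ∂mu := by
    intro n
    have h1 : rho (Φ (e n)).val (Φ (e (n + 1))).val + rho (Φ (e (-n - 1))).val (Φ (e (-n))).val
        = ∫ x, g (x + (M x + n) • al) ∂mu + ∫ x, g (x + (M x - n - 1) • al) ∂mu := by
      rw [rho, rho, ← integral_add (integrable_D _ _) (integrable_D _ _),
        ← integral_add (integrable_g_comp (measurable_shift (hM.add_const n)))
          (integrable_g_comp (measurable_shift ((hM.sub_const n).sub_const 1)))]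
      apply integral_congr_ae
      filter_upwards [ae_linear Φ] with x hx
      exact D_pair x (M x) n (fun j => (Φ (e j)).val x) hx
    have h2 : rho (e n).val (e (n + 1)).val + rho (e (-n - 1)).val (e (-n)).val
        = ∫ x, g (x + (0 + n) • al) ∂mu + ∫ x, g (x + (0 - n - 1) • al) ∂mu := by
      rw [rho, rho, ← integral_add (integrable_D _ _) (integrable_D _ _),
        ← integral_add (integrable_g_comp (measurable_add_const _))
          (integrable_g_comp (measurable_add_const _))]
      apply integral_congr_ae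
      filter_upwards [ae_all_iff.mpr e_ae] with x hx
      refine D_pair x 0 n (fun j => (e j).val x) ?_
      rcases sg_cases 0 x with h | h
      · left; intro j; rw [hx, h]; ring
      · right; intro j; rw [hx, h]; ring
    rw [integral_add_right_eq_self g, integral_add_right_eq_self g] at h2
    have h3 : ∫ x, g (x + (M x - n - 1) • al) ∂mu = ∫ x, g (x + (M x + n) • al) ∂mu := by
      rw [← integral_tau 1 (fun x => g (x + (M x + n) • al))]
      apply integral_congr_ae
      filter_upwards [hsym] with x hx
      rw [hx, ← g_refl]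
      congr 1
      simp only [tau, sub_smul, add_smul, one_smul]; abel
    rw [rho_map, rho_map, h2, h3] at h1
    linarith
  have hTheta := measurable_shift hM
  have : IsProbabilityMeasure (Measure.map (fun x => x + M x • al) mu) :=
    Measure.isProbabilityMeasure_map hTheta.aemeasurable
  have hmap : Measure.map (fun x => x + M x • al) mu = mu := by
    apply eq_mu_of_translates _ (∫ x, g x ∂mu)
    intro n
    rw [integral_map hTheta.aemeasurable, ← key n]
    · congr 1; ext x
      simp only [g, add_smul]
      congr 1; abel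
    · exact (continuous_gam.comp ((continuous_id.add continuous_const).add
        continuous_const)).aestronglyMeasurable
  have hint : Integrable (fun x => (M x : ℝ)) mu := by
    refine Integrable.mono' (L1.integrable_coeFn (Φ (e 0)).val).norm
      ((measurable_of_countable (fun m : ℤ => (m : ℝ))).comp hM).aestronglyMeasurable
      (Eventually.of_forall fun x => ?_)
    rw [Int.norm_cast_real]
  obtain ⟨c, hc⟩ := integral_int_of_map_eq M hM hint hmap
  have h4 : ∫ x, (M x : ℝ) ∂mu = 1 - ∫ x, (M x : ℝ) ∂mu := by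
    conv_lhs => rw [← integral_tau 1]
    have : ∫ x, (1 - (M x : ℝ)) ∂mu = 1 - ∫ x, (M x : ℝ) ∂mu := by
      rw [integral_sub (integrable_const _) hint]; simp
    rw [← this]
    apply integral_congr_ae
    filter_upwards [hsym] with x hx
    rw [hx]; push_cast; ring
  rw [hc] at h4
  have h5 : (2 * c : ℤ) = 1 := by
    have : ((2 * c : ℤ) : ℝ) = 1 := by push_cast; linarith
    exact_mod_cast this
  omega

end Pool.Agent.MP_1231ed_gt

namespace Pool.Agent.MP_1231ed_gt

theorem main : ∃ (A B : Type) (_ : MetricSpace A) (_ : MetricSpace B),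
    CompleteSpace A ∧ CompleteSpace B ∧
    TopologicalSpace.SeparableSpace A ∧ TopologicalSpace.SeparableSpace B ∧
    (∃ φ : A × A ≃ B × B, ∀ p q : A × A,
      Real.sqrt (dist (φ p).1 (φ q).1 ^ 2 + dist (φ p).2 (φ q).2 ^ 2)
        = Real.sqrt (dist p.1 q.1 ^ 2 + dist p.2 q.2 ^ 2)) ∧
    IsEmpty (A ≃ᵢ B) := by
  refine ⟨Space 0, Space 1, inferInstance, inferInstance, inferInstance, inferInstance,
    inferInstance, inferInstance, ?_, not_isometric⟩
  obtain ⟨φ, hφ⟩ := exists_square_equiv 0 1
  exact ⟨φ, fun p q => by rw [hφ]⟩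

end Pool.Agent.MP_1231ed_gt

end
end
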